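import Mathlib
import Pool.Agent.H2.BlockSums

namespace Pool.Agent.Results.MP_6f4934_co.Proof

/-- Sum of the coordinates `d_t` with `a ≤ t < b` (coordinates are numbered from `0`). -/
def blockSum {n : ℕ} (d : Fin n → ℝ) (a b : ℕ) : ℝ :=
  ∑ t ∈ Finset.univ.filter (fun t : Fin n => a ≤ t.val ∧ t.val < b), d t

/-- Coefficient vector of the type A equation `blockSum i j = blockSum j k`. -/
def coeffA (n : ℕ) (e : ℕ × ℕ × ℕ) : Fin n → ℝ := fun t =>
  (if e.1 ≤ t.val ∧ t.val < e.2.1 then 1 else 0) - (if e.2.1 ≤ t.val ∧ t.val < e.2.2 then 1 else 0)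

/-- A positive vector satisfying `n - 1` linearly independent type A equations. -/
def IsTypeA (n : ℕ) (d : Fin n → ℝ) : Prop :=
  (∀ t, 0 < d t) ∧ ∃ e : Fin (n - 1) → ℕ × ℕ × ℕ,
    (∀ r, (e r).1 < (e r).2.1 ∧ (e r).2.1 < (e r).2.2 ∧ (e r).2.2 ≤ n) ∧
    LinearIndependent ℝ (fun r => coeffA n (e r)) ∧
    ∀ r, blockSum d (e r).1 (e r).2.1 = blockSum d (e r).2.1 (e r).2.2

theorem result (n : ℕ) (hn : 1 ≤ n) (d : Fin n → ℝ) (h : IsTypeA n d) (i : Fin n) :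
    ∑ j, d j ≤ 2 ^ (n - 1) * d i := by
  obtain ⟨m, rfl⟩ : ∃ m, n = m + 1 := ⟨n - 1, by omega⟩
  obtain ⟨hd, e, h1, h2, h3⟩ := h
  refine Pool.Agent.H2.BlockSums.main m (fun r => ((e r).1, (e r).2.1, (e r).2.1, (e r).2.2))
    (fun r => ⟨(h1 r).1.le, (h1 r).2.1.le⟩) h2 d hd (fun r => ?_) i
  have := h3 r
  simp only [blockSum, Finset.sum_filter] at this
  simp only [Pool.Agent.H2.BlockSums.eqn, sub_mul, Finset.sum_sub_distrib, ite_mul, one_mul,
    zero_mul]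
  exact sub_eq_zero.2 this

end Pool.Agent.Results.MP_6f4934_co.Proof
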